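import Pool.Agent.Y333.RP.Gap

/-!
# All increments of the regularity of the powers of an edge ideal, for every graph

Definitions used (files `Pool.Agent.H677R3.RegKoszul`, `RegDeg` and `AbSusp`):
* `edgeIdeal k G` is the ideal of `k[x_0,…,x_{n-1}]` spanned by the `x_i x_j`, `i` adjacent to `j`;
* `TorNe J i e`: the Koszul homology `H_i(x_1,…,x_n; J) = Tor_i(J, k)` is nonzero in internal
  degree `i + e`;
* `IsReg J r`: `r` is the greatest `e` such that `TorNe J i e` for some `i`, i.e. `reg J = r`;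
* `away G x y`: the graph which has only the edges `uv` of `G` with `u`, `v` different from `x`, `y`
  and not adjacent to them;
* `GapFree G`: two edges without a common vertex are joined by an edge (for a graph with an edge
  this means `ν(G) = 1`).
-/

universe u

namespace Pool.Agent.Results.MP_081cfe_al.AllSteps

open Pool.Agent.H677R3.EdgeReg Pool.Agent.H677R3.Ab Pool.Agent.Y333.RP

/-- Let `G` be a graph with an edge, `r = reg I(G)` and `σ` the greatest among `1` and the
regularities of the edge ideals of the graphs `away G x y`, `xy` an edge; `σ = 1` if and only if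
`ν(G) = 1`. Then `reg I(G)^(q+1) = reg I(G)^q + 2` if and only if `q ≥ r - σ` (in particular for all
`q ≥ r - 1`, whatever `ν(G)` is), and `reg I(G)^(q+1) = reg I(G)^q + 1` if and only if
`q < r - σ`. -/
theorem result : ∀ (k : Type u) [Field k] (n : ℕ) (G : SimpleGraph (Fin n)),
    (∃ u v, G.Adj u v) → ∃ r σ : ℕ, IsReg (edgeIdeal k G) r ∧
      IsGreatest ({1} ∪ {s | ∃ x y, G.Adj x y ∧ IsReg (edgeIdeal k (away G x y)) s}) σ ∧
      (σ = 1 ↔ GapFree G) ∧ 1 ≤ σ ∧ σ + 1 ≤ r ∧
      ∀ q : ℕ, 1 ≤ q → ∃ s t : ℕ, IsReg ((edgeIdeal k G) ^ q) s ∧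
        IsReg ((edgeIdeal k G) ^ (q + 1)) t ∧ (t = s + 2 ↔ r - σ ≤ q) ∧
        (t = s + 1 ↔ q < r - σ) := by
  intro k _ n G hG
  obtain ⟨r, σ, h1, h2, h3, h4⟩ := formula' k G hG
  have hσ : 1 ≤ σ := h2.2 (Or.inl rfl)
  exact ⟨r, σ, h1, h2, sigma_eq_one_iff k G σ h2, hσ, h3,
    fun q hq => ⟨_, _, h4 q hq, h4 (q + 1) (by omega), by omega, by omega⟩⟩

end Pool.Agent.Results.MP_081cfe_al.AllSteps
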